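import Pool.Agent.H93.KC.Targets

/-!
# LIN and CHAIN: linearity of the Levi form, and its chain rule
-/

open Set Metric Filter Topology
open scoped ContDiff

noncomputable section

namespace Pool.Agent.H33.KC

open Pool.Agent.H93.KC

lemma hess_congr (u w : E → ℝ) (x : E) (h : u =ᶠ[𝓝 x] w) : hess u x = hess w x := by
  unfold hess
  exact h.fderiv.fderiv_eq

lemma herm_congr (u w : E → ℝ) (x : E) (h : u =ᶠ[𝓝 x] w) : herm u x = herm w x := by
  unfold herm
  rw [hess_congr u w x h]

lemma diffAt_fderiv {u : E → ℝ} {x : E} (hu : ContDiffAt ℝ 2 u x) :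
    DifferentiableAt ℝ (fderiv ℝ u) x := by
  have h2 : ContDiffAt ℝ 1 (fderiv ℝ u) x := hu.fderiv_right (by norm_num)
  exact h2.differentiableAt (by decide)

lemma ev_diffAt {u : E → ℝ} {x : E} (hu : ContDiffAt ℝ 2 u x) :
    ∀ᶠ y in 𝓝 x, DifferentiableAt ℝ u y := by
  have h1 : ∀ᶠ z in 𝓝 x, ContDiffAt ℝ 2 u z := hu.eventually (by decide)
  filter_upwards [h1] with y hy using hy.differentiableAt (by decide)

lemma hess_lin (u w : E → ℝ) (a b : ℝ) (x : E) (hu : ContDiffAt ℝ 2 u x)
    (hw : ContDiffAt ℝ 2 w x) :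
    hess (fun y => a * u y + b * w y) x = a • hess u x + b • hess w x := by
  have hEq : fderiv ℝ (fun y => a * u y + b * w y) =ᶠ[𝓝 x]
      fun y => a • fderiv ℝ u y + b • fderiv ℝ w y := by
    filter_upwards [ev_diffAt hu, ev_diffAt hw] with y h1 h2
    exact ((h1.hasFDerivAt.const_mul a).add (h2.hasFDerivAt.const_mul b)).fderiv
  unfold hess
  rw [hEq.fderiv_eq]
  exact (((diffAt_fderiv hu).hasFDerivAt.const_smul a).add
    ((diffAt_fderiv hw).hasFDerivAt.const_smul b)).fderiv

lemma hess_symm (u : E → ℝ) (x : E) (hu : ContDiffAt ℝ 2 u x) (v w : E) :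
    hess u x v w = hess u x w v := by
  have h := hu.isSymmSndFDerivAt (by simp)
  exact h v w

theorem lin : T_LIN := by
  refine ⟨herm_congr, ?_, ?_, ?_, ?_, ?_⟩
  · intro u w a b x hu hw
    unfold herm
    rw [hess_lin u w a b x hu hw]
    refine ContinuousLinearMap.ext fun v => ContinuousLinearMap.ext fun v' => ?_
    show (a * hess u x v v' + b * hess w x v v')
      + (a * hess u x (J v) (J v') + b * hess w x (J v) (J v'))
      = a * (hess u x v v' + hess u x (J v) (J v')) + b * (hess w x v v' + hess w x (J v) (J v'))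
    ring
  · intro c x
    have h : hess (fun _ : E => c) x = 0 := by
      unfold hess
      have : fderiv ℝ (fun _ : E => c) = fun _ => 0 := by
        funext y
        exact (hasFDerivAt_const c y).fderiv
      rw [this]
      exact (hasFDerivAt_const _ x).fderiv
    unfold herm
    rw [h]
    refine ContinuousLinearMap.ext fun v => ContinuousLinearMap.ext fun w => ?_
    show (0 : ℝ) + 0 = 0
    ring
  · intro u x hu v w
    show hess u x v w + hess u x (J v) (J w) = hess u x w v + hess u x (J w) (J v)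
    rw [hess_symm u x hu v w, hess_symm u x hu (J v) (J w)]
  · intro u x hu v w
    show hess u x (Complex.I • v) (Complex.I • w)
      + hess u x (Complex.I • Complex.I • v) (Complex.I • Complex.I • w)
      = hess u x v w + hess u x (Complex.I • v) (Complex.I • w)
    rw [smul_smul, smul_smul, Complex.I_mul_I, neg_one_smul, neg_one_smul, map_neg, map_neg,
      neg_apply, neg_neg]
    ring
  · intro u hu
    have h1 : ContDiff ℝ ∞ (fderiv ℝ u) := hu.fderiv_right (by simp)
    have h2 : ContDiff ℝ ∞ (hess u) := h1.fderiv_right (by simp)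
    refine contDiff_clm_apply_iff.mpr fun v => contDiff_clm_apply_iff.mpr fun w => ?_
    have h3 : ∀ v w : E, ContDiff ℝ ∞ (fun x => hess u x v w) := fun v w =>
      (h2.clm_apply contDiff_const).clm_apply contDiff_const
    exact (h3 v w).add (h3 (J v) (J w))

/-- Hessian of `l ∘ s` -/
lemma hess_chain (l : ℝ → ℝ) (s : E → ℝ) (x : E) (hl : ContDiffAt ℝ 2 l (s x))
    (hs : ContDiffAt ℝ 2 s x) (v w : E) :
    hess (l ∘ s) x v w = deriv l (s x) * hess s x v w
      + deriv (deriv l) (s x) * (fderiv ℝ s x v * fderiv ℝ s x w) := by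
  have hev : ∀ᶠ y in 𝓝 x, DifferentiableAt ℝ l (s y) := by
    have h1 : ∀ᶠ z in 𝓝 (s x), ContDiffAt ℝ 2 l z := hl.eventually (by decide)
    filter_upwards [hs.continuousAt.eventually h1] with y hy using
      hy.differentiableAt (by decide)
  have hEq : fderiv ℝ (l ∘ s) =ᶠ[𝓝 x] fun y => deriv l (s y) • fderiv ℝ s y := by
    filter_upwards [hev, ev_diffAt hs] with y h1 h2
    exact (h1.hasDerivAt.comp_hasFDerivAt y h2.hasFDerivAt).fderiv
  have hl' : DifferentiableAt ℝ (deriv l) (s x) := by
    have h2 : ContDiffAt ℝ 1 (fderiv ℝ l) (s x) := hl.fderiv_right (by norm_num)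
    have h3 : DifferentiableAt ℝ (fderiv ℝ l) (s x) := h2.differentiableAt (by decide)
    exact h3.clm_apply (differentiableAt_const _)
  have hs' : HasFDerivAt s (fderiv ℝ s x) x := (hs.differentiableAt (by decide)).hasFDerivAt
  have h1 : HasFDerivAt (fun y => deriv l (s y)) (deriv (deriv l) (s x) • fderiv ℝ s x) x :=
    hl'.hasDerivAt.comp_hasFDerivAt x hs'
  have h2 := h1.smul (diffAt_fderiv hs).hasFDerivAt
  unfold hess
  rw [hEq.fderiv_eq]
  rw [show (fun y => deriv l (s y) • fderiv ℝ s y) = (fun y => deriv l (s y)) • fderiv ℝ s from rfl,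
    h2.fderiv]
  show deriv l (s x) * fderiv ℝ (fderiv ℝ s) x v w
    + (deriv (deriv l) (s x) * fderiv ℝ s x v) * fderiv ℝ s x w = _
  ring

theorem chain : T_CHAIN := by
  intro l s x hl hs v
  show hess (l ∘ s) x v v + hess (l ∘ s) x (Complex.I • v) (Complex.I • v)
    = deriv l (s x) * (hess s x v v + hess s x (Complex.I • v) (Complex.I • v)) + _
  rw [hess_chain l s x hl hs, hess_chain l s x hl hs]
  ring

end Pool.Agent.H33.KC
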