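import Pool.Agent.H33.KC.Pull
import Pool.Agent.H33.KC.Lin

/-!
# LOGS: `log (|f|² + |g|² + δ)` has a nonnegative Levi form
-/

open Set Metric Filter Topology
open scoped ContDiff

noncomputable section

namespace Pool.Agent.H33.KC

open Pool.Agent.H93.KC

lemma two_le : (2 : WithTop ℕ∞) ≤ ∞ :=
  WithTop.coe_le_coe.mpr (le_top : (2 : ℕ∞) ≤ ⊤)

/-- `|y₁|² + |y₂|² + δ` -/
def sq (δ : ℝ) (y : E) : ℝ := ‖y.1‖ ^ 2 + ‖y.2‖ ^ 2 + δ

lemma sq_contDiff (δ : ℝ) : ContDiff ℝ ∞ (sq δ) := by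
  unfold sq
  exact ((contDiff_fst.norm_sq ℝ).add (contDiff_snd.norm_sq ℝ)).add contDiff_const

lemma fderiv_sq (δ : ℝ) (y v : E) : fderiv ℝ (sq δ) y v
    = 2 * (y.1.re * v.1.re + y.1.im * v.1.im) + 2 * (y.2.re * v.2.re + y.2.im * v.2.im) := by
  have h1 : HasFDerivAt (fun y : E => ‖y.1‖ ^ 2)
      (2 • (innerSL ℝ y.1).comp (ContinuousLinearMap.fst ℝ ℂ ℂ)) y :=
    (hasFDerivAt_fst (𝕜 := ℝ) (E := ℂ) (F := ℂ)).norm_sq
  have h2 : HasFDerivAt (fun y : E => ‖y.2‖ ^ 2)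
      (2 • (innerSL ℝ y.2).comp (ContinuousLinearMap.snd ℝ ℂ ℂ)) y :=
    (hasFDerivAt_snd (𝕜 := ℝ) (E := ℂ) (F := ℂ)).norm_sq
  have h3 := (h1.add h2).add_const δ
  have h4 : fderiv ℝ (sq δ) y = 2 • (innerSL ℝ y.1).comp (ContinuousLinearMap.fst ℝ ℂ ℂ)
      + 2 • (innerSL ℝ y.2).comp (ContinuousLinearMap.snd ℝ ℂ ℂ) := h3.fderiv
  rw [h4]
  have e1 : inner ℝ y.1 v.1 = y.1.re * v.1.re + y.1.im * v.1.im := by
    rw [Complex.inner]; simp; ring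
  have e2 : inner ℝ y.2 v.2 = y.2.re * v.2.re + y.2.im * v.2.im := by
    rw [Complex.inner]; simp; ring
  rw [← e1, ← e2]
  simp
  ring

lemma herm_sq (hSQ : T_SQ) (δ : ℝ) (y v : E) :
    herm (sq δ) y v v = 4 * (‖v.1‖ ^ 2 + ‖v.2‖ ^ 2) := by
  have h := lin.2.1 (fun y : E => ‖y.1‖ ^ 2 + ‖y.2‖ ^ 2) (fun _ => (1 : ℝ)) 1 δ y
    ((hSQ.1.contDiffAt).of_le two_le) contDiffAt_const
  have h2 : (fun y : E => (1 : ℝ) * (‖y.1‖ ^ 2 + ‖y.2‖ ^ 2) + δ * 1) = sq δ := by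
    funext y
    unfold sq
    ring
  rw [h2, lin.2.2.1] at h
  rw [h, ← hSQ.2 y v]
  simp

lemma herm_log_sq (hSQ : T_SQ) (δ : ℝ) (hδ : 0 < δ) (y v : E) :
    0 ≤ herm (Real.log ∘ sq δ) y v v := by
  have hs : 0 < sq δ y := by unfold sq; positivity
  have hs2 : ContDiffAt ℝ 2 (sq δ) y :=
    (sq_contDiff δ).contDiffAt.of_le two_le
  rw [chain Real.log (sq δ) y (Real.contDiffAt_log.mpr hs.ne') hs2 v, herm_sq hSQ, fderiv_sq,
    fderiv_sq]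
  have d1 : deriv Real.log (sq δ y) = (sq δ y)⁻¹ := Real.deriv_log _
  have d2 : deriv (deriv Real.log) (sq δ y) = -((sq δ y) ^ 2)⁻¹ := by
    rw [Real.deriv_log']
    exact deriv_inv
  rw [d1, d2]
  have key : (2 * (y.1.re * v.1.re + y.1.im * v.1.im)
      + 2 * (y.2.re * v.2.re + y.2.im * v.2.im)) ^ 2
      + (2 * (y.1.re * (Complex.I • v).1.re + y.1.im * (Complex.I • v).1.im)
      + 2 * (y.2.re * (Complex.I • v).2.re + y.2.im * (Complex.I • v).2.im)) ^ 2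
      ≤ 4 * (‖v.1‖ ^ 2 + ‖v.2‖ ^ 2) * sq δ y := by
    have n1 : ∀ z : ℂ, ‖z‖ ^ 2 = z.re ^ 2 + z.im ^ 2 := fun z => by
      rw [← Complex.normSq_eq_norm_sq, Complex.normSq_apply]; ring
    have a1 : (Complex.I • v).1.re = - v.1.im := by simp
    have a2 : (Complex.I • v).1.im = v.1.re := by simp
    have a3 : (Complex.I • v).2.re = - v.2.im := by simp
    have a4 : (Complex.I • v).2.im = v.2.re := by simp
    unfold sq
    rw [n1, n1, n1, n1, a1, a2, a3, a4]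
    obtain ⟨⟨a, b⟩, ⟨c, d⟩⟩ := y
    obtain ⟨⟨p, q⟩, ⟨r, s⟩⟩ := v
    simp only
    have t : 0 ≤ (p ^ 2 + q ^ 2 + (r ^ 2 + s ^ 2)) * δ := by positivity
    nlinarith [sq_nonneg (a * r - b * s - (c * p - d * q)),
      sq_nonneg (a * s + b * r - (c * q + d * p))]
  have e : (sq δ y)⁻¹ * (4 * (‖v.1‖ ^ 2 + ‖v.2‖ ^ 2))
      = ((sq δ y) ^ 2)⁻¹ * (4 * (‖v.1‖ ^ 2 + ‖v.2‖ ^ 2) * sq δ y) := by
    field_simp
  rw [e, neg_mul, ← sub_eq_add_neg, ← mul_sub]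
  exact mul_nonneg (by positivity) (by linarith)

theorem logs (hSQ : T_SQ) : T_LOGS := by
  intro f g δ x hδ hf hg v
  have hfg : AnalyticAt ℂ (fun y => (f y, g y)) x := AnalyticAt.prod hf hg
  have h : (fun y => Real.log (‖f y‖ ^ 2 + ‖g y‖ ^ 2 + δ))
      = (Real.log ∘ sq δ) ∘ (fun y => (f y, g y)) := rfl
  have hs : 0 < sq δ (f x, g x) := by unfold sq; positivity
  have hc : ContDiffAt ℝ 2 (Real.log ∘ sq δ) (f x, g x) :=
    (Real.contDiffAt_log.mpr hs.ne').comp _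
      ((sq_contDiff δ).contDiffAt.of_le two_le)
  rw [h, pull (Real.log ∘ sq δ) _ x hc hfg]
  exact herm_log_sq hSQ δ hδ _ _

end Pool.Agent.H33.KC
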