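import Pool.Agent.H93.KC.Targets

/-!
# PULL: the Levi form of a pullback by a holomorphic map
-/

open Set Metric Filter Topology
open scoped ContDiff

noncomputable section

namespace Pool.Agent.H33.KC

open Pool.Agent.H93.KC

lemma J_apply (v : E) : J v = Complex.I • v := rfl

lemma herm_apply (u : E → ℝ) (x v w : E) :
    herm u x v w = hess u x v w + hess u x (Complex.I • v) (Complex.I • w) := rfl

/-- second derivative of a composition with a holomorphic map -/
lemma hess_comp (u : E → ℝ) (φ : E → E) (x : E) (hu : ContDiffAt ℝ 2 u (φ x))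
    (hφ : AnalyticAt ℂ φ x) (v w : E) :
    hess (u ∘ φ) x v w = fderiv ℝ u (φ x) (fderiv ℂ (fderiv ℂ φ) x v w)
      + hess u (φ x) (fderiv ℂ φ x v) (fderiv ℂ φ x w) := by
  have hev1 : ∀ᶠ y in 𝓝 x, DifferentiableAt ℂ φ y := by
    filter_upwards [hφ.eventually_analyticAt] with y hy using hy.differentiableAt
  have hev2 : ∀ᶠ y in 𝓝 x, DifferentiableAt ℝ u (φ y) := by
    have h1 : ∀ᶠ z in 𝓝 (φ x), ContDiffAt ℝ 2 u z := hu.eventually (by decide)
    have h2 := hφ.continuousAt.eventually h1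
    filter_upwards [h2] with y hy using hy.differentiableAt (by decide)
  have hEq : fderiv ℝ (u ∘ φ) =ᶠ[𝓝 x]
      fun y => (fderiv ℝ u (φ y)).comp ((fderiv ℂ φ y).restrictScalars ℝ) := by
    filter_upwards [hev1, hev2] with y hy1 hy2
    exact (hy2.hasFDerivAt.comp y (hy1.hasFDerivAt.restrictScalars ℝ)).fderiv
  have hφ' : HasFDerivAt φ ((fderiv ℂ φ x).restrictScalars ℝ) x :=
    hφ.differentiableAt.hasFDerivAt.restrictScalars ℝ
  have hc : HasFDerivAt (fun y => fderiv ℝ u (φ y))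
      ((fderiv ℝ (fderiv ℝ u) (φ x)).comp ((fderiv ℂ φ x).restrictScalars ℝ)) x := by
    have h1 : DifferentiableAt ℝ (fderiv ℝ u) (φ x) := by
      have h2 : ContDiffAt ℝ 1 (fderiv ℝ u) (φ x) := hu.fderiv_right (by norm_num)
      exact h2.differentiableAt (by decide)
    exact h1.hasFDerivAt.comp x hφ'
  have hd : HasFDerivAt (fun y => (fderiv ℂ φ y).restrictScalars ℝ)
      ((ContinuousLinearMap.restrictScalarsL ℂ E E ℝ ℝ).comp
        ((fderiv ℂ (fderiv ℂ φ) x).restrictScalars ℝ)) x := by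
    have h1 : HasFDerivAt (fderiv ℂ φ) ((fderiv ℂ (fderiv ℂ φ) x).restrictScalars ℝ) x :=
      hφ.fderiv.differentiableAt.hasFDerivAt.restrictScalars ℝ
    exact (ContinuousLinearMap.hasFDerivAt
      (ContinuousLinearMap.restrictScalarsL ℂ E E ℝ ℝ)).comp x h1
  have hcomp := hc.clm_comp hd
  unfold hess
  rw [hEq.fderiv_eq, hcomp.fderiv]
  rfl

theorem pull : T_PULL := by
  intro u φ x hu hφ v w
  rw [herm_apply, herm_apply, hess_comp u φ x hu hφ, hess_comp u φ x hu hφ]
  have h1 : fderiv ℂ (fderiv ℂ φ) x (Complex.I • v) (Complex.I • w)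
      = - fderiv ℂ (fderiv ℂ φ) x v w := by
    rw [map_smul, map_smul, smul_apply, smul_smul, Complex.I_mul_I,
      neg_one_smul]
  rw [h1, map_neg, (fderiv ℂ φ x).map_smul, (fderiv ℂ φ x).map_smul]
  ring

end Pool.Agent.H33.KC
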